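import Mathlib
import Pool.Agent.Q85.Mom.Blk

set_option autoImplicit false

/-!
# A sharp Bernstein inequality for the moments of zeta on the critical line

For every exponent `p ≥ 1` the derivative of `e^{iϑ(t)} ζ(1/2 + it)`, `ϑ(t) = (t/2) log (t/2πe)` the main
term of the Riemann-Siegel phase, has `L^p` norm at most `(½ log T + C)` times the `L^p` norm of
`ζ(1/2 + it)`, and its second derivative at most `(½ log T + C)²` times, with an absolute constant `C`,
on all intervals `[a, b] ⊆ [T, 8T]` of length `≥ C^p`; for the rotation `e^{iλt}`, `0 ≤ λ ≤ log T`, the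
constant is `max (λ, log T - λ) + C`, so `log T + C` for `ζ` itself.
-/

open Filter Topology Set MeasureTheory

namespace Pool.Agent.Results.MP_91b7ff_nt.BernsteinInequality

/-- the value `ζ(1/2 + it)` -/
noncomputable def z (t : ℝ) : ℂ := riemannZeta (1 / 2 + t * Complex.I)

/-- the `L^p` norm of `F` over `[a, b]` -/
noncomputable def N (p a b : ℝ) (F : ℝ → ℂ) : ℝ := (∫ t in a..b, ‖F t‖ ^ p) ^ (1 / p)

/-- the main term `(t/2) log (t/2πe)` of the Riemann-Siegel phase -/
noncomputable def theta (t : ℝ) : ℝ := t / 2 * Real.log (t / (2 * Real.pi * Real.exp 1))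

/-- `e^{iϑ(t)} ζ(1/2 + it)` -/
noncomputable def f (t : ℝ) : ℂ := Complex.exp (theta t * Complex.I) * z t

/-- `e^{iλt} ζ(1/2 + it)` -/
noncomputable def g (lam t : ℝ) : ℂ := Complex.exp ((lam * t : ℝ) * Complex.I) * z t

open Pool.Agent.Q85.Mom Complex

lemma N_eq (p a b : ℝ) (F : ℝ → ℂ) : N p a b F = nrm p a b F := rfl
lemma z_eq : z = Pool.Agent.Q85.Mom.z := rfl

lemma z_der (t : ℝ) : HasDerivAt z (z1 t * I) t := by
  have h1 := zeta_der (ne_one t)
  have h2 : HasDerivAt (fun t : ℝ => (1 / 2 + t * I : ℂ)) I t := by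
    have h3 := ((Complex.ofRealCLM.hasDerivAt (x := t)).mul_const I).const_add (1 / 2 : ℂ)
    simpa using h3
  exact HasDerivAt.scomp_of_eq (h := fun t : ℝ => (1 / 2 + t * I : ℂ)) t h1 h2 rfl |>.congr_deriv (by
    rw [smul_eq_mul, mul_comm]; rfl)

lemma z1_der (t : ℝ) : HasDerivAt z1 (z2 t * I) t := by
  have h1 := zeta_der2 (ne_one t)
  have h2 : HasDerivAt (fun t : ℝ => (1 / 2 + t * I : ℂ)) I t := by
    have h3 := ((Complex.ofRealCLM.hasDerivAt (x := t)).mul_const I).const_add (1 / 2 : ℂ)
    simpa using h3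
  exact HasDerivAt.scomp_of_eq (h := fun t : ℝ => (1 / 2 + t * I : ℂ)) t h1 h2 rfl |>.congr_deriv (by
    rw [smul_eq_mul, mul_comm]; rfl)

/-- first and second derivative of `e^{iφ(t)} ζ(1/2+it)` -/
lemma rot_der {φ φ1 : ℝ → ℝ} {t : ℝ} (h : HasDerivAt φ (φ1 t) t) :
    HasDerivAt (fun t => cexp (φ t * I) * z t) (cexp (φ t * I) * ((z1 t + φ1 t * z t) * I)) t := by
  have h1 : HasDerivAt (fun t => cexp (φ t * I)) (cexp (φ t * I) * (φ1 t * I)) t :=
    (h.ofReal_comp.mul_const I).cexp
  refine (h1.mul (z_der t)).congr_deriv ?_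
  ring

lemma rot_der2 {φ φ1 : ℝ → ℝ} {φ2 t : ℝ} (h : HasDerivAt φ (φ1 t) t) (h2 : HasDerivAt φ1 φ2 t) :
    HasDerivAt (fun t => cexp (φ t * I) * ((z1 t + φ1 t * z t) * I))
      (cexp (φ t * I) * (-(z2 t + 2 * φ1 t * z1 t + φ1 t ^ 2 * z t) + φ2 * I * z t)) t := by
  have h1 : HasDerivAt (fun t => cexp (φ t * I)) (cexp (φ t * I) * (φ1 t * I)) t :=
    (h.ofReal_comp.mul_const I).cexp
  have h3 := ((z1_der t).add (h2.ofReal_comp.mul (z_der t))).mul_const I
  refine (h1.mul h3).congr_deriv ?_
  have e : (I : ℂ) * I = -1 := I_mul_I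
  simp only [Pi.add_apply, Pi.mul_apply]
  linear_combination (cexp (φ t * I) * (z2 t + 2 * φ1 t * z1 t + φ1 t ^ 2 * z t)) * e

lemma norm_rot (x : ℝ) (w : ℂ) : ‖cexp (x * I) * w‖ = ‖w‖ := by
  rw [norm_mul, Complex.norm_exp_ofReal_mul_I, one_mul]

lemma g_der (lam t : ℝ) : deriv (g lam) t = cexp ((lam * t : ℝ) * I) * ((z1 t + lam * z t) * I) := by
  have h : HasDerivAt (fun t : ℝ => lam * t) ((fun _ => lam) t) t := by
    simpa using (hasDerivAt_id t).const_mul lam
  exact (rot_der (φ := fun t => lam * t) (φ1 := fun _ => lam) h).deriv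

lemma g_der2 (lam t : ℝ) : deriv (deriv (g lam)) t = cexp ((lam * t : ℝ) * I) *
    (-(z2 t + 2 * lam * z1 t + lam ^ 2 * z t) + (0 : ℝ) * I * z t) := by
  have e : deriv (g lam) = fun t => cexp ((lam * t : ℝ) * I) * ((z1 t + lam * z t) * I) := by
    funext t
    exact g_der lam t
  rw [e]
  have h : HasDerivAt (fun t : ℝ => lam * t) ((fun _ => lam) t) t := by
    simpa using (hasDerivAt_id t).const_mul lam
  exact (rot_der2 (φ := fun t => lam * t) (φ1 := fun _ => lam) h (hasDerivAt_const t lam)).deriv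

/-- the derivative of the phase -/
noncomputable def th1 (t : ℝ) : ℝ := Real.log (t / (2 * Real.pi)) / 2

lemma theta_der {t : ℝ} (ht : 0 < t) : HasDerivAt theta (th1 t) t := by
  have hpi := Real.pi_pos
  have he := Real.exp_pos 1
  have h1 : HasDerivAt (fun t : ℝ => t / (2 * Real.pi * Real.exp 1)) (1 / (2 * Real.pi * Real.exp 1)) t :=
    (hasDerivAt_id t).div_const _
  have h2 := h1.log (by positivity)
  have h3 := ((hasDerivAt_id t).div_const 2).mul h2
  refine h3.congr_deriv ?_
  unfold th1
  have e1 : Real.log (t / (2 * Real.pi * Real.exp 1)) = Real.log (t / (2 * Real.pi)) - 1 := by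
    rw [← div_div, Real.log_div (by positivity) he.ne', Real.log_exp]
  simp only [id]
  rw [e1]
  field_simp
  ring

lemma th1_der {t : ℝ} (ht : 0 < t) : HasDerivAt th1 (1 / (2 * t)) t := by
  have hpi := Real.pi_pos
  have h1 : HasDerivAt (fun t : ℝ => t / (2 * Real.pi)) (1 / (2 * Real.pi)) t :=
    (hasDerivAt_id t).div_const _
  have h2 := (h1.log (by positivity)).div_const 2
  refine h2.congr_deriv ?_
  field_simp

lemma f_der {t : ℝ} (ht : 0 < t) : deriv f t = cexp (theta t * I) * ((z1 t + th1 t * z t) * I) :=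
  (rot_der (theta_der ht)).deriv

lemma f_der2 {t : ℝ} (ht : 0 < t) : deriv (deriv f) t = cexp (theta t * I) *
    (-(z2 t + 2 * th1 t * z1 t + th1 t ^ 2 * z t) + (1 / (2 * t) : ℝ) * I * z t) := by
  have e : deriv f =ᶠ[𝓝 t] fun t => cexp (theta t * I) * ((z1 t + th1 t * z t) * I) := by
    filter_upwards [lt_mem_nhds ht] with s hs
    exact f_der hs
  rw [e.deriv_eq]
  exact (rot_der2 (theta_der ht) (th1_der ht)).deriv

lemma th1_near {T t : ℝ} (hT : 3 ≤ T) (h1 : T ≤ t) (h2 : t ≤ 8 * T) :
    |th1 t - Real.log T / 2| ≤ 1 := by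
  have hT0 : 0 < T := by linarith
  have ht0 : 0 < t := by linarith
  have hpi := Real.pi_gt_three
  have hpi4 := Real.pi_lt_four
  have e : th1 t - Real.log T / 2 = Real.log (t / T / (2 * Real.pi)) / 2 := by
    unfold th1
    rw [Real.log_div ht0.ne' (by positivity), Real.log_div (by positivity) (by positivity),
      Real.log_div ht0.ne' hT0.ne']
    ring
  rw [e, abs_div, abs_of_pos (two_pos : (0 : ℝ) < 2), div_le_one two_pos, abs_le]
  have h3 : 1 ≤ t / T := (one_le_div hT0).2 h1
  have h4 : t / T ≤ 8 := (div_le_iff₀ hT0).2 h2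
  have hexp : 7.38 ≤ Real.exp 2 := by
    have := Real.exp_one_gt_d9
    have e2 : Real.exp 2 = Real.exp 1 ^ 2 := by rw [← Real.exp_nat_mul]; norm_num
    rw [e2]
    nlinarith
  constructor
  · rw [← Real.log_exp (-2 : ℝ)]
    apply Real.log_le_log (Real.exp_pos _)
    rw [Real.exp_neg, le_div_iff₀ (by positivity)]
    have h5 : (Real.exp 2)⁻¹ ≤ (7.38 : ℝ)⁻¹ := inv_anti₀ (by norm_num) hexp
    have h6 : 2 * Real.pi ≤ 6.3 := by
      have := Real.pi_lt_d2
      linarith
    calc (Real.exp 2)⁻¹ * (2 * Real.pi) ≤ (7.38 : ℝ)⁻¹ * 6.3 := by gcongr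
      _ ≤ 1 := by norm_num
      _ ≤ t / T := h3
  · have h5 : Real.log (t / T / (2 * Real.pi)) ≤ Real.log (Real.exp 2) := by
      apply Real.log_le_log (by positivity)
      rw [div_le_iff₀ (by positivity)]
      nlinarith
    rwa [Real.log_exp] at h5

theorem result : ∃ C T₀ : ℝ, 0 < C ∧ ∀ p T a b : ℝ, 1 ≤ p → T₀ ≤ T → T ≤ a → a + C ^ p ≤ b →
    b ≤ 8 * T →
    (N p a b (deriv f) ≤ (Real.log T / 2 + C) * N p (a - Real.log T) (b + Real.log T) z ∧
      N p a b (deriv (deriv f)) ≤
        (Real.log T / 2 + C) ^ 2 * N p (a - Real.log T) (b + Real.log T) z) ∧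
    ∀ lam : ℝ, 0 ≤ lam → lam ≤ Real.log T →
      N p a b (deriv (g lam)) ≤
        (max lam (Real.log T - lam) + C) * N p (a - Real.log T) (b + Real.log T) z ∧
      N p a b (deriv (deriv (g lam))) ≤
        (max lam (Real.log T - lam) + C) ^ 2 * N p (a - Real.log T) (b + Real.log T) z := by
  obtain ⟨C, T₀, hC, hT₀, hB⟩ := blk
  refine ⟨C + 2, T₀, by linarith, fun p T a b hp hT ha hab hb => ?_⟩
  have hp0 : 0 < p := by linarith
  have hT3 : 3 ≤ T := hT₀.trans hT
  have hCp : C ^ p ≤ (C + 2) ^ p := Real.rpow_le_rpow (by linarith) (by linarith) hp0.le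
  have hCp0 : 0 < C ^ p := by positivity
  have hab1 : a + C ^ p ≤ b := by linarith
  have hab' : a ≤ b := by linarith
  have hℓ : 0 ≤ Real.log T := Real.log_nonneg (by linarith)
  simp only [N_eq, z_eq]
  constructor
  · obtain ⟨h1, -, h2, h3⟩ := hB p T a b (Real.log T / 2) hp hT ha hab1 hb (by positivity) (by linarith)
    rw [show Real.log T - Real.log T / 2 = Real.log T / 2 by ring, max_self] at h2 h3
    set n0 := nrm p (a - Real.log T) (b + Real.log T) Pool.Agent.Q85.Mom.z with hn0
    have hz : nrm p a b Pool.Agent.Q85.Mom.z ≤ n0 :=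
      nrm_interval hp0 (by linarith) hab' (by linarith) z_cont
    have hF1 : Continuous (F1 (Real.log T / 2)) := F1_cont _
    have hF2 : Continuous (F2 (Real.log T / 2)) := F2_cont _
    constructor
    · have h4 : nrm p a b (deriv f) ≤ nrm p a b (F1 (Real.log T / 2)) +
          1 * nrm p a b Pool.Agent.Q85.Mom.z := by
        refine nrm_add_le hp hab' hF1 z_cont zero_le_one fun t ht => ?_
        have ht0 : 0 < t := by linarith [ht.1]
        rw [f_der ht0, norm_rot, norm_mul, norm_I, mul_one]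
        have e : z1 t + th1 t * z t = F1 (Real.log T / 2) t +
            ((th1 t - Real.log T / 2 : ℝ) : ℂ) * z t := by
          unfold F1
          rw [z_eq]
          push_cast
          ring
        rw [e]
        refine (norm_add_le _ _).trans ?_
        apply add_le_add le_rfl
        rw [norm_mul, Complex.norm_real, Real.norm_eq_abs, z_eq]
        exact mul_le_mul_of_nonneg_right (th1_near hT3 (by linarith [ht.1]) (by linarith [ht.2]))
          (norm_nonneg _)
      refine h4.trans ?_
      nlinarith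
    · have h5 : nrm p a b (fun t => F2 (Real.log T / 2) t) ≤
          (Real.log T / 2 + C) ^ 2 * n0 := h3
      have c1 : Continuous fun t => ((‖F2 (Real.log T / 2) t‖ + 2 * ‖F1 (Real.log T / 2) t‖ : ℝ) : ℂ) :=
        Complex.continuous_ofReal.comp (hF2.norm.add (hF1.norm.const_mul 2))
      have h6 : nrm p a b (fun t => ((‖F2 (Real.log T / 2) t‖ + 2 * ‖F1 (Real.log T / 2) t‖ : ℝ) : ℂ)) ≤
          nrm p a b (F2 (Real.log T / 2)) + 2 * nrm p a b (F1 (Real.log T / 2)) := by
        refine nrm_add_le hp hab' hF2 hF1 zero_le_two fun t _ => ?_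
        rw [Complex.norm_real, Real.norm_eq_abs, abs_of_nonneg (by positivity)]
      have h4 : nrm p a b (deriv (deriv f)) ≤
          nrm p a b (fun t => ((‖F2 (Real.log T / 2) t‖ + 2 * ‖F1 (Real.log T / 2) t‖ : ℝ) : ℂ)) +
          2 * nrm p a b Pool.Agent.Q85.Mom.z := by
        refine nrm_add_le hp hab' c1 z_cont zero_le_two fun t ht => ?_
        have ht0 : 0 < t := by linarith [ht.1]
        rw [f_der2 ht0, norm_rot]
        set d : ℝ := th1 t - Real.log T / 2 with hd
        have hd1 : |d| ≤ 1 := th1_near hT3 (by linarith [ht.1]) (by linarith [ht.2])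
        have e : -(z2 t + 2 * th1 t * z1 t + th1 t ^ 2 * z t) + (1 / (2 * t) : ℝ) * I * z t =
            -F2 (Real.log T / 2) t + ((-2 * d : ℝ) : ℂ) * F1 (Real.log T / 2) t +
            (((-d ^ 2 : ℝ) : ℂ) + (1 / (2 * t) : ℝ) * I) * z t := by
          have e1 : th1 t = Real.log T / 2 + d := by rw [hd]; ring
          rw [e1]
          unfold F1 F2
          rw [z_eq]
          push_cast
          ring
        rw [e]
        refine (norm_add_le _ _).trans ?_
        rw [norm_mul, z_eq, Complex.norm_real, Real.norm_eq_abs, abs_of_nonneg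
          (by positivity : 0 ≤ ‖F2 (Real.log T / 2) t‖ + 2 * ‖F1 (Real.log T / 2) t‖)]
        apply add_le_add
        · refine (norm_add_le _ _).trans ?_
          rw [norm_neg, norm_mul, Complex.norm_real, Real.norm_eq_abs, abs_mul]
          have : |(-2 : ℝ)| * |d| ≤ 2 := by
            rw [abs_neg, abs_of_pos two_pos]
            linarith
          have := mul_le_mul_of_nonneg_right this (norm_nonneg (F1 (Real.log T / 2) t))
          linarith
        · apply mul_le_mul_of_nonneg_right _ (norm_nonneg _)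
          refine (norm_add_le _ _).trans ?_
          rw [Complex.norm_real, norm_mul, norm_I, Complex.norm_real, mul_one, Real.norm_eq_abs,
            Real.norm_eq_abs, abs_neg, abs_of_nonneg (sq_nonneg d), abs_of_pos (by positivity)]
          have h7 : d ^ 2 ≤ 1 := by
            have := abs_le.1 hd1
            nlinarith
          have h8 : 1 / (2 * t) ≤ 1 := by
            rw [div_le_one (by positivity)]
            linarith [ht.1]
          linarith
      have h9 : nrm p a b (deriv (deriv f)) ≤ (Real.log T / 2 + C) ^ 2 * n0 +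
          2 * ((Real.log T / 2 + C) * n0) + 2 * n0 := by linarith
      refine h9.trans ?_
      have h10 : (Real.log T / 2 + (C + 2)) ^ 2 = (Real.log T / 2 + C) ^ 2 +
          4 * (Real.log T / 2 + C) + 4 := by ring
      rw [h10]
      have h11 : 0 ≤ (Real.log T / 2 + C) * n0 := by positivity
      nlinarith
  · intro lam hlam hlam'
    obtain ⟨h1, -, h2, h3⟩ := hB p T a b lam hp hT ha hab1 hb hlam hlam'
    set n0 := nrm p (a - Real.log T) (b + Real.log T) Pool.Agent.Q85.Mom.z with hn0
    have hmax : 0 ≤ max lam (Real.log T - lam) := hlam.trans (le_max_left _ _)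
    constructor
    · have h4 : nrm p a b (deriv (g lam)) = nrm p a b (F1 lam) := by
        apply nrm_congr hab'
        intro t _
        rw [g_der, norm_rot, norm_mul, norm_I, mul_one]
        rfl
      rw [h4]
      refine h2.trans ?_
      apply mul_le_mul_of_nonneg_right _ (by linarith)
      linarith
    · have h4 : nrm p a b (deriv (deriv (g lam))) = nrm p a b (F2 lam) := by
        apply nrm_congr hab'
        intro t _
        rw [g_der2, norm_rot, Complex.ofReal_zero, zero_mul, zero_mul, add_zero, norm_neg]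
        rfl
      rw [h4]
      refine h3.trans ?_
      apply mul_le_mul_of_nonneg_right _ (by linarith)
      apply pow_le_pow_left₀ (by linarith)
      linarith

end Pool.Agent.Results.MP_91b7ff_nt.BernsteinInequality
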