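import Mathlib
import Pool.Agent.W188.GP.All
import Pool.Agent.W188.MZ.Pts2
import Pool.Agent.W338.QS.Line

set_option autoImplicit false

/-!
MP_91b7ff_nt. The order of magnitude of the moments of `ζ` and the points at which `ζ(1/2 + it)` lies on one line.

Let `p > 1` be real, let `u ≠ 0`, and let `D p u S T` be the sum of `|ζ(1/2 + it)|^p` over the heights
`S < t ≤ T`, `t > 100`, at which `ζ(1/2 + it)` is a nonzero point of the line `uℝ` (for `u = 1` these are the Gram
points at which `ζ` does not vanish, and no others). Then `D p u` and `log T ∫ |ζ|^p` dominate each other on dyadic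
blocks, uniformly in `u`. So an upper bound `O(T (log T)^A)` for the moment is equivalent to the upper bound
`O(T (log T)^(A+1))` for the discrete moment over one line, any line.
-/

open Filter Topology Set MeasureTheory Asymptotics

namespace Pool.Agent.Results.MP_91b7ff_nt.GramPoints

/-- the value `ζ(1/2 + it)` -/
noncomputable def z (t : ℝ) : ℂ := riemannZeta (1 / 2 + t * Complex.I)

/-- the heights `t > 100` at which `ζ(1/2 + it)` is a nonzero point of the line `uℝ` -/
def Line (u : ℂ) : Set ℝ := {t | 100 < t ∧ ∃ r : ℝ, r ≠ 0 ∧ z t = r * u}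

/-- the sum of `|ζ(1/2 + it)|^p` over the heights `S < t ≤ T` in `Line u` -/
noncomputable def D (p : ℝ) (u : ℂ) (S T : ℝ) : ℝ := ∑ᶠ t ∈ Line u ∩ Ioc S T, ‖z t‖ ^ p

open Pool.Agent.W188.QS Pool.Agent.W188.GP

lemma line_qs : StLine := Pool.Agent.W338.QS.qs_line

/-- the number `c` that belongs to the direction `u` -/
noncomputable def cc (u : ℂ) : ℂ := ((u / (‖u‖ : ℂ))⁻¹) ^ 2

lemma cc_norm {u : ℂ} (hu : u ≠ 0) : ‖cc u‖ = 1 := by
  have h : ‖u‖ ≠ 0 := norm_ne_zero_iff.2 hu
  unfold cc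
  rw [norm_pow, norm_inv, norm_div, Complex.norm_real, norm_norm, div_self h]
  simp

/-- points on the critical line with `w = 1`, in terms of `ζ` -/
lemma ww_iff {c : ℂ} {t : ℝ} (ht : 1 ≤ t) (hz : z t ≠ 0) :
    ww c 1 (cp t) = 1 ↔ c * z t ^ 2 = ((‖z t‖ ^ 2 : ℝ) : ℂ) := by
  have hX : ‖XX (cp t)‖ = 1 := line_qs.2.1 t
  have hX0 : XX (cp t) ≠ 0 := by
    intro h
    rw [h] at hX
    simp at hX
  have hfe : (starRingEnd ℂ) (z t) = XX (cp t) * z t := line_qs.2.2.1 t ht
  have h2 : ((‖z t‖ ^ 2 : ℝ) : ℂ) = XX (cp t) * z t ^ 2 := by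
    have h3 := Complex.mul_conj (z t)
    rw [hfe, Complex.normSq_eq_norm_sq] at h3
    rw [← h3]; ring
  rw [h2]
  have hz2 : z t ^ 2 ≠ 0 := pow_ne_zero _ hz
  unfold ww
  rw [pow_one]
  constructor
  · intro h
    have h2 : c = XX (cp t) := by
      have := congrArg (fun x => x * XX (cp t)) h
      simp only [one_mul] at this
      rw [mul_assoc, inv_mul_cancel₀ hX0, mul_one] at this
      exact this
    rw [h2]
  · intro h
    have h2 : c = XX (cp t) := mul_right_cancel₀ hz2 h
    rw [h2]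
    exact mul_inv_cancel₀ hX0

/-- the algebraic description of the line -/
lemma line_iff {u x : ℂ} (hu : u ≠ 0) (hx : x ≠ 0) :
    cc u * x ^ 2 = ((‖x‖ ^ 2 : ℝ) : ℂ) ↔ ∃ r : ℝ, r ≠ 0 ∧ x = r * u := by
  have hu0 : ‖u‖ ≠ 0 := norm_ne_zero_iff.2 hu
  have hx0 : ‖x‖ ≠ 0 := norm_ne_zero_iff.2 hx
  have hu1 : (‖u‖ : ℂ) ≠ 0 := by exact_mod_cast hu0
  have hx1 : (‖x‖ : ℂ) ≠ 0 := by exact_mod_cast hx0
  constructor
  · intro h
    have h1 : ((u / (‖u‖ : ℂ))⁻¹ * x) ^ 2 = (‖x‖ : ℂ) ^ 2 := by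
      rw [mul_pow]
      unfold cc at h
      rw [h]
      push_cast
      ring
    rcases sq_eq_sq_iff_eq_or_eq_neg.1 h1 with h2 | h2
    · refine ⟨‖x‖ / ‖u‖, div_ne_zero hx0 hu0, ?_⟩
      push_cast
      rw [← h2]
      field_simp
    · refine ⟨-(‖x‖ / ‖u‖), neg_ne_zero.2 (div_ne_zero hx0 hu0), ?_⟩
      push_cast
      have h3 : (‖x‖ : ℂ) = -((u / (‖u‖ : ℂ))⁻¹ * x) := by rw [h2]; ring
      rw [h3]
      field_simp
  · rintro ⟨r, hr, hxr⟩
    have hxn : ‖x‖ = |r| * ‖u‖ := by
      rw [hxr, norm_mul, Complex.norm_real, Real.norm_eq_abs]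
    have h4 : ((‖x‖ ^ 2 : ℝ) : ℂ) = (r : ℂ) ^ 2 * (‖u‖ : ℂ) ^ 2 := by
      rw [hxn, mul_pow, sq_abs]
      push_cast
      ring
    rw [h4, cc, hxr]
    field_simp

lemma Line_iff {u : ℂ} (hu : u ≠ 0) {t : ℝ} (hz : z t ≠ 0) :
    t ∈ Line u ↔ t ∈ PP (cc u) 1 := by
  constructor
  · rintro ⟨h1, h2⟩
    exact ⟨h1, (ww_iff (by linarith) hz).2 ((line_iff hu hz).2 h2)⟩
  · rintro ⟨h1, h2⟩
    exact ⟨h1, (line_iff hu hz).1 ((ww_iff (by linarith) hz).1 h2)⟩

lemma Line_ne {u : ℂ} (hu : u ≠ 0) {t : ℝ} (h : t ∈ Line u) : z t ≠ 0 := by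
  obtain ⟨-, r, hr, h2⟩ := h
  rw [h2]
  exact mul_ne_zero (by exact_mod_cast hr) hu

lemma sum_eq {u : ℂ} (hu : u ≠ 0) (U : Set ℝ) (f : ℝ → ℝ)
    (hf : ∀ t, z t = 0 → f t = 0) :
    ∑ᶠ t ∈ Line u ∩ U, f t = ∑ᶠ t ∈ PP (cc u) 1 ∩ U, f t := by
  apply finsum_mem_inter_support_eq
  ext t
  simp only [mem_inter_iff, Function.mem_support]
  constructor
  · rintro ⟨⟨h1, h2⟩, h3⟩
    have hz : z t ≠ 0 := fun h => h3 (hf t h)
    exact ⟨⟨(Line_iff hu hz).1 h1, h2⟩, h3⟩
  · rintro ⟨⟨h1, h2⟩, h3⟩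
    have hz : z t ≠ 0 := fun h => h3 (hf t h)
    exact ⟨⟨(Line_iff hu hz).2 h1, h2⟩, h3⟩

/-- the discrete moments in terms of the nodes -/
lemma D_eq {u : ℂ} (hu : u ≠ 0) : ∃ γ : ℝ, ∀ (p a b : ℝ), 0 < p → 100 ≤ a → a ≤ b →
    D p u a b = DD p γ a b ∧ (Line u ∩ Ioc a b).Finite := by
  obtain ⟨γ, hγ⟩ := Pool.Agent.W188.MZ.pts_uniform a_tau line_qs (cc_norm hu)
  refine ⟨γ, fun p a b hp ha hab => ?_⟩
  obtain ⟨h1, h2⟩ := hγ 1 le_rfl (fun t => ZZ t ^ p) a b ha hab
  rw [pow_one] at h1 h2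
  constructor
  · unfold D
    rw [sum_eq hu (Ioc a b) (fun t => ‖z t‖ ^ p) (fun t ht => by
      rw [ht, norm_zero, Real.zero_rpow hp.ne'])]
    refine h2.trans ?_
    rw [Finset.sum_range_one]
    unfold DD
    simp
  · refine h1.subset ?_
    rintro t ⟨h3, h4⟩
    exact ⟨(Line_iff hu (Line_ne hu h3)).1 h3, h4⟩

lemma Line_fin {u : ℂ} (hu : u ≠ 0) (a b : ℝ) : (Line u ∩ Ioc a b).Finite := by
  obtain ⟨γ, hγ⟩ := D_eq hu
  rcases le_total (max a 100) b with h | h
  · refine (hγ 1 (max a 100) b one_pos (le_max_right _ _) h).2.subset ?_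
    rintro t ⟨h1, h2, h3⟩
    exact ⟨h1, max_lt h2 h1.1, h3⟩
  · refine Set.finite_empty.subset ?_
    rintro t ⟨h1, h2, h3⟩
    rcases le_total a 100 with h4 | h4
    · rw [max_eq_right h4] at h
      have := h1.1
      linarith
    · rw [max_eq_left h4] at h
      linarith

lemma D_nonneg (p : ℝ) (u : ℂ) (a b : ℝ) : 0 ≤ D p u a b :=
  finsum_nonneg fun _ => finsum_nonneg fun _ => Real.rpow_nonneg (norm_nonneg _) _

lemma D_add {p : ℝ} {u : ℂ} (hu : u ≠ 0) {a b c : ℝ} (hab : a ≤ b) (hbc : b ≤ c) :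
    D p u a c = D p u a b + D p u b c := by
  unfold D
  rw [← finsum_mem_union _ (Line_fin hu a b) (Line_fin hu b c), ← Set.inter_union_distrib_left,
    Ioc_union_Ioc_eq_Ioc hab hbc]
  rw [Set.disjoint_left]
  rintro t ⟨-, -, h1⟩ ⟨-, h2, -⟩
  linarith

lemma D_mono {p : ℝ} {u : ℂ} (hu : u ≠ 0) {a b c d : ℝ} (hca : c ≤ a) (hab : a ≤ b) (hbd : b ≤ d) :
    D p u a b ≤ D p u c d := by
  rw [D_add hu (hca.trans hab) hbd, D_add hu hca hab]
  have := D_nonneg p u c a
  have := D_nonneg p u b d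
  linarith

lemma zp_cont {p : ℝ} (hp : 0 < p) : Continuous fun t : ℝ => ‖z t‖ ^ p := by
  have h1 : Continuous z := by
    rw [continuous_iff_continuousAt]
    intro t
    have hne : (1 / 2 + (t : ℂ) * Complex.I) ≠ 1 := by
      intro h
      have := congrArg Complex.re h
      simp at this
    have h2 : ContinuousAt riemannZeta (1 / 2 + (t : ℂ) * Complex.I) :=
      (differentiableAt_riemannZeta hne).continuousAt
    have h3 : ContinuousAt (fun t : ℝ => (1 / 2 + (t : ℂ) * Complex.I)) t := by fun_prop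
    exact ContinuousAt.comp (f := fun t : ℝ => (1 / 2 + (t : ℂ) * Complex.I)) (g := riemannZeta) h2 h3
  exact h1.norm.rpow_const (fun _ => Or.inr hp.le)

lemma I_mono {p : ℝ} (hp : 0 < p) {a b c d : ℝ} (hca : c ≤ a) (hab : a ≤ b) (hbd : b ≤ d) :
    ∫ t in a..b, ‖z t‖ ^ p ≤ ∫ t in c..d, ‖z t‖ ^ p := by
  refine intervalIntegral.integral_mono_interval hca hab hbd ?_ ((zp_cont hp).intervalIntegrable _ _)
  exact Eventually.of_forall fun t => Real.rpow_nonneg (norm_nonneg _) _

lemma I_nonneg {p : ℝ} {a b : ℝ} (hab : a ≤ b) : 0 ≤ ∫ t in a..b, ‖z t‖ ^ p :=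
  intervalIntegral.integral_nonneg hab fun _ _ => Real.rpow_nonneg (norm_nonneg _) _

/-- summation over the blocks `(T / 8, T]` -/
lemma blocks {f : ℝ → ℝ} {m c T₀ : ℝ} (hm : 0 ≤ m) (hc : 0 ≤ c) (hT₀ : 24 ≤ T₀) (hmono : Monotone f)
    (hf0 : ∀ T, 0 ≤ f T) (h : ∀ T, T₀ ≤ T → f T ≤ f (T / 8) + c * (T * Real.log T ^ m)) :
    ∀ T, T₀ ≤ T → f T ≤ (2 * c + f T₀) * (T * Real.log T ^ m) := by
  have hone : ∀ T, T₀ ≤ T → 1 ≤ T * Real.log T ^ m := by
    intro T hT
    have h1 : 1 ≤ Real.log T := by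
      rw [Real.le_log_iff_exp_le (by linarith)]
      have := Real.exp_one_lt_d9
      linarith
    have h2 : 1 ≤ Real.log T ^ m := Real.one_le_rpow h1 hm
    nlinarith
  have key : ∀ n : ℕ, ∀ T, T₀ ≤ T → T ≤ T₀ * 8 ^ n → f T ≤ (2 * c + f T₀) * (T * Real.log T ^ m) := by
    intro n
    induction n with
    | zero =>
      intro T hT hT2
      rw [pow_zero, mul_one] at hT2
      have := le_antisymm hT2 hT
      have h1 := hone T hT
      have h2 := hf0 T₀
      rw [this] at h1 ⊢
      nlinarith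
    | succ n ih =>
      intro T hT hT2
      have h1 := hone T hT
      have h2 := hf0 T₀
      have h3 := h T hT
      rcases le_total (T / 8) T₀ with h4 | h4
      · have h5 := hmono h4
        nlinarith
      · have h5 := ih (T / 8) h4 (by rw [pow_succ] at hT2; linarith)
        have h6 : T / 8 * Real.log (T / 8) ^ m ≤ T * Real.log T ^ m / 8 := by
          have h7 : Real.log (T / 8) ^ m ≤ Real.log T ^ m := by
            refine Real.rpow_le_rpow (Real.log_nonneg (by linarith)) ?_ hm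
            exact Real.log_le_log (by linarith) (by linarith)
          have h8 : 0 ≤ T / 8 := by linarith
          calc T / 8 * Real.log (T / 8) ^ m ≤ T / 8 * Real.log T ^ m := by gcongr
            _ = T * Real.log T ^ m / 8 := by ring
        have h9 : (2 * c + f T₀) * (T / 8 * Real.log (T / 8) ^ m) ≤
            (2 * c + f T₀) * (T * Real.log T ^ m / 8) := by
          gcongr
        nlinarith
  intro T hT
  obtain ⟨n, hn⟩ := pow_unbounded_of_one_lt (T / T₀) (by norm_num : (1 : ℝ) < 8)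
  refine key n T hT ?_
  rw [div_lt_iff₀ (by linarith)] at hn
  linarith

lemma log16 {T : ℝ} (hT : 16 ≤ T) : Real.log (16 * T) ≤ 2 * Real.log T := by
  rw [Real.log_mul (by norm_num) (by linarith)]
  have := Real.log_le_log (by norm_num : (0 : ℝ) < 16) hT
  linarith

/-- **One line determines the order of the moments.** -/
theorem result :
    -- the sets of points are locally finite
    (∀ (u : ℂ) (a b : ℝ), u ≠ 0 → (Line u ∩ Ioc a b).Finite) ∧
    -- comparison on dyadic blocks, uniformly in the line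
    (∀ p : ℝ, 1 < p → ∃ C T₀ : ℝ, 0 < C ∧ ∀ (u : ℂ) (T : ℝ), u ≠ 0 → T₀ ≤ T →
      Real.log T * (∫ t in T..(8 * T), ‖z t‖ ^ p) ≤ C * D p u (T / 2) (16 * T) ∧
      D p u T (8 * T) ≤ C * (Real.log T * ∫ t in (T / 2)..(16 * T), ‖z t‖ ^ p)) ∧
    -- equivalence of the upper bounds
    (∀ (p A : ℝ) (u : ℂ), 1 < p → 0 ≤ A → u ≠ 0 →
      ((fun T : ℝ => ∫ t in (0:ℝ)..T, ‖z t‖ ^ p) =O[atTop] (fun T : ℝ => T * Real.log T ^ A) ↔
        (fun T : ℝ => D p u 100 T) =O[atTop] (fun T : ℝ => T * Real.log T ^ (A + 1)))) := by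
  have cmp : ∀ p : ℝ, 1 < p → ∃ C T₀ : ℝ, 0 < C ∧ ∀ (u : ℂ) (T : ℝ), u ≠ 0 → T₀ ≤ T →
      Real.log T * (∫ t in T..(8 * T), ‖z t‖ ^ p) ≤ C * D p u (T / 2) (16 * T) ∧
      D p u T (8 * T) ≤ C * (Real.log T * ∫ t in (T / 2)..(16 * T), ‖z t‖ ^ p) := by
    intro p hp
    obtain ⟨C, T₀, hC, h⟩ := a_fin p hp
    refine ⟨C, max T₀ 200, hC, fun u T hu hT => ?_⟩
    obtain ⟨γ, hγ⟩ := D_eq hu
    have hT1 : T₀ ≤ T := (le_max_left _ _).trans hT
    have hT2 : 200 ≤ T := (le_max_right _ _).trans hT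
    obtain ⟨h1, h2⟩ := h T γ hT1
    rw [(hγ p (T / 2) (16 * T) (by linarith) (by linarith) (by linarith)).1,
      (hγ p T (8 * T) (by linarith) (by linarith) (by linarith)).1]
    exact ⟨h1, h2⟩
  refine ⟨fun u a b hu => Line_fin hu a b, cmp, fun p A u hp hA hu => ?_⟩
  have hp0 : 0 < p := by linarith
  obtain ⟨C, T₀, hC, h⟩ := cmp p hp
  constructor
  · intro hO
    obtain ⟨K, hK⟩ := hO.bound
    obtain ⟨T₁, hT₁⟩ := eventually_atTop.1 hK
    set K' := max K 0 with hK'
    have hK0 : 0 ≤ K' := le_max_right _ _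
    set T₂ := max (max T₀ T₁) 200 with hT₂
    have hb : ∀ T, 8 * T₂ ≤ T → D p u 100 T ≤ D p u 100 (T / 8) +
        (C * (K' * (4 * 2 ^ (A + 1)))) * (T * Real.log T ^ (A + 1)) := by
      intro T hT
      have h200 : 200 ≤ T₂ := le_max_right _ _
      have hT8 : T₂ ≤ T / 8 := by linarith
      have hT00 : 0 < T := by linarith
      have ha := (h u (T / 8) hu (((le_max_left _ _).trans (le_max_left _ _)).trans hT8)).2
      have h1 : T₁ ≤ 2 * T := by
        have : T₁ ≤ T₂ := (le_max_right _ _).trans (le_max_left _ _)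
        linarith
      have h2 := hT₁ (2 * T) h1
      have hlog : 0 ≤ Real.log (2 * T) := Real.log_nonneg (by linarith)
      have hlogT : 0 ≤ Real.log T := Real.log_nonneg (by linarith)
      have hlog2 : Real.log (2 * T) ≤ 2 * Real.log T :=
        (Real.log_le_log (by linarith) (by linarith)).trans (log16 (T := T) (by linarith))
      rw [Real.norm_of_nonneg (I_nonneg (by linarith)), Real.norm_of_nonneg (by positivity)] at h2
      have h3 : 2 * T * Real.log (2 * T) ^ A ≤ 2 * T * (2 * Real.log T) ^ A := by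
        gcongr
      have h4 : (∫ t in (T / 8 / 2)..(16 * (T / 8)), ‖z t‖ ^ p) ≤ K' * (2 * T * (2 * Real.log T) ^ A) := by
        calc (∫ t in (T / 8 / 2)..(16 * (T / 8)), ‖z t‖ ^ p) ≤ ∫ t in (0:ℝ)..(2 * T), ‖z t‖ ^ p :=
              I_mono hp0 (by linarith) (by linarith) (by linarith)
          _ ≤ K * (2 * T * Real.log (2 * T) ^ A) := h2
          _ ≤ K' * (2 * T * Real.log (2 * T) ^ A) := by
              refine mul_le_mul_of_nonneg_right (le_max_left _ _) ?_
              positivity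
          _ ≤ K' * (2 * T * (2 * Real.log T) ^ A) := mul_le_mul_of_nonneg_left h3 hK0
      have h5 : Real.log (T / 8) ≤ 2 * Real.log T := by
        have := Real.log_le_log (by linarith : 0 < T / 8) (by linarith : T / 8 ≤ T)
        linarith
      rw [show 8 * (T / 8) = T by ring] at ha
      have h6 : Real.log (T / 8) * (∫ t in (T / 8 / 2)..(16 * (T / 8)), ‖z t‖ ^ p) ≤
          2 * Real.log T * (K' * (2 * T * (2 * Real.log T) ^ A)) := by
        refine mul_le_mul h5 h4 (I_nonneg (by linarith)) (by linarith)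
      have h7 : C * (2 * Real.log T * (K' * (2 * T * (2 * Real.log T) ^ A))) ≤
          (C * (K' * (4 * 2 ^ (A + 1)))) * (T * Real.log T ^ (A + 1)) := by
        have e1 : (2 * Real.log T) * (2 * Real.log T) ^ A = (2 * Real.log T) ^ (A + 1) := by
          have hpos : 0 < 2 * Real.log T := by
            have := Real.log_pos (by linarith : 1 < T)
            linarith
          rw [Real.rpow_add_one hpos.ne', mul_comm]
        have e2 : (2 * Real.log T) ^ (A + 1) = 2 ^ (A + 1) * Real.log T ^ (A + 1) :=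
          Real.mul_rpow (by norm_num) hlogT
        have e3 : C * (2 * Real.log T * (K' * (2 * T * (2 * Real.log T) ^ A))) =
            C * (K' * (2 * 2 ^ (A + 1))) * (T * Real.log T ^ (A + 1)) := by
          calc C * (2 * Real.log T * (K' * (2 * T * (2 * Real.log T) ^ A))) =
              C * (K' * (2 * T * ((2 * Real.log T) * (2 * Real.log T) ^ A))) := by ring
            _ = C * (K' * (2 * 2 ^ (A + 1))) * (T * Real.log T ^ (A + 1)) := by
              rw [e1, e2]; ring
        rw [e3]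
        have h8 : 0 ≤ T * Real.log T ^ (A + 1) := by positivity
        refine mul_le_mul_of_nonneg_right ?_ h8
        gcongr
        norm_num
      rw [D_add hu (by linarith : (100 : ℝ) ≤ T / 8) (by linarith : T / 8 ≤ T)]
      have h9 := mul_le_mul_of_nonneg_left h6 hC.le
      linarith
    have hm : Monotone fun T : ℝ => D p u 100 T := by
      intro a b hab
      rcases le_total 100 a with ha | ha
      · exact D_mono hu le_rfl ha hab
      · have : D p u 100 a = 0 := by
          unfold D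
          have : Line u ∩ Ioc 100 a = ∅ := by
            ext t
            simp only [mem_inter_iff, mem_Ioc, mem_empty_iff_false, iff_false, not_and]
            intro _ h1
            linarith
          rw [this, finsum_mem_empty]
        simp only
        rw [this]
        exact D_nonneg _ _ _ _
    have hfin := blocks (f := fun T : ℝ => D p u 100 T) (m := A + 1) (c := C * (K' * (4 * 2 ^ (A + 1))))
      (T₀ := 8 * T₂) (by linarith) (by positivity)
      (by have : 200 ≤ T₂ := le_max_right _ _; linarith) hm (fun T => D_nonneg _ _ _ _) hb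
    refine IsBigO.of_bound (2 * (C * (K' * (4 * 2 ^ (A + 1)))) + D p u 100 (8 * T₂)) ?_
    filter_upwards [eventually_ge_atTop (8 * T₂), eventually_ge_atTop 1] with T hT hT1
    have hT00 : 0 < T := by linarith
    rw [Real.norm_of_nonneg (D_nonneg _ _ _ _), Real.norm_of_nonneg (by
      have := Real.log_nonneg hT1
      positivity)]
    exact hfin T hT
  · intro hO
    obtain ⟨K, hK⟩ := hO.bound
    obtain ⟨T₁, hT₁⟩ := eventually_atTop.1 hK
    set K' := max K 0 with hK'
    have hK0 : 0 ≤ K' := le_max_right _ _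
    set T₂ := max (max T₀ T₁) 200 with hT₂
    have hb : ∀ T, 8 * T₂ ≤ T → (∫ t in (0:ℝ)..(max T 0), ‖z t‖ ^ p) ≤ (∫ t in (0:ℝ)..(max (T / 8) 0), ‖z t‖ ^ p) +
        (C * (K' * (4 * 2 ^ (A + 1)))) * (T * Real.log T ^ A) := by
      intro T hT
      have h200 : 200 ≤ T₂ := le_max_right _ _
      have hT8 : T₂ ≤ T / 8 := by linarith
      have hT00 : 0 < T := by linarith
      rw [max_eq_left (by linarith : 0 ≤ T), max_eq_left (by linarith : 0 ≤ T / 8)]
      have ha := (h u (T / 8) hu (((le_max_left _ _).trans (le_max_left _ _)).trans hT8)).1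
      have h1 : T₁ ≤ 2 * T := by
        have : T₁ ≤ T₂ := (le_max_right _ _).trans (le_max_left _ _)
        linarith
      have h2 := hT₁ (2 * T) h1
      have hlog : 0 ≤ Real.log (2 * T) := Real.log_nonneg (by linarith)
      have hlogT : 0 < Real.log T := Real.log_pos (by linarith)
      have hlog2 : Real.log (2 * T) ≤ 2 * Real.log T :=
        (Real.log_le_log (by linarith) (by linarith)).trans (log16 (T := T) (by linarith))
      rw [Real.norm_of_nonneg (D_nonneg _ _ _ _), Real.norm_of_nonneg (by positivity)] at h2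
      have h3 : 2 * T * Real.log (2 * T) ^ (A + 1) ≤ 2 * T * (2 * Real.log T) ^ (A + 1) := by
        gcongr
      have h4 : D p u (T / 8 / 2) (16 * (T / 8)) ≤ K' * (2 * T * (2 * Real.log T) ^ (A + 1)) := by
        calc D p u (T / 8 / 2) (16 * (T / 8)) ≤ D p u 100 (2 * T) :=
              D_mono hu (by linarith) (by linarith) (by linarith)
          _ ≤ K * (2 * T * Real.log (2 * T) ^ (A + 1)) := h2
          _ ≤ K' * (2 * T * Real.log (2 * T) ^ (A + 1)) := by
              refine mul_le_mul_of_nonneg_right (le_max_left _ _) ?_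
              positivity
          _ ≤ K' * (2 * T * (2 * Real.log T) ^ (A + 1)) := mul_le_mul_of_nonneg_left h3 hK0
      rw [show 8 * (T / 8) = T by ring] at ha
      have hlog8 : Real.log T ≤ 2 * Real.log (T / 8) := by
        have h5 := log16 (T := T / 8) (by linarith)
        have h6 := Real.log_le_log (by linarith : 0 < T) (by linarith : T ≤ 16 * (T / 8))
        linarith
      have h5 : Real.log T / 2 * (∫ t in (T / 8)..T, ‖z t‖ ^ p) ≤
          C * (K' * (2 * T * (2 * Real.log T) ^ (A + 1))) := by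
        calc Real.log T / 2 * (∫ t in (T / 8)..T, ‖z t‖ ^ p) ≤
            Real.log (T / 8) * (∫ t in (T / 8)..T, ‖z t‖ ^ p) := by
              refine mul_le_mul_of_nonneg_right (by linarith) (I_nonneg (by linarith))
          _ ≤ C * D p u (T / 8 / 2) (16 * (T / 8)) := ha
          _ ≤ _ := mul_le_mul_of_nonneg_left h4 hC.le
      have h6 : (∫ t in (T / 8)..T, ‖z t‖ ^ p) ≤ (C * (K' * (4 * 2 ^ (A + 1)))) * (T * Real.log T ^ A) := by
        have e2 : (2 * Real.log T) ^ (A + 1) = 2 ^ (A + 1) * (Real.log T ^ A * Real.log T) := by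
          rw [Real.mul_rpow (by norm_num) hlogT.le, Real.rpow_add_one hlogT.ne']
        have e3 : C * (K' * (2 * T * (2 * Real.log T) ^ (A + 1))) =
            Real.log T / 2 * ((C * (K' * (4 * 2 ^ (A + 1)))) * (T * Real.log T ^ A)) := by
          rw [e2]; ring
        rw [e3] at h5
        exact le_of_mul_le_mul_left h5 (by linarith)
      rw [← intervalIntegral.integral_add_adjacent_intervals ((zp_cont hp0).intervalIntegrable 0 (T / 8))
        ((zp_cont hp0).intervalIntegrable (T / 8) T)]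
      linarith
    have hm : Monotone fun T : ℝ => ∫ t in (0:ℝ)..(max T 0), ‖z t‖ ^ p := by
      intro a b hab
      exact I_mono hp0 le_rfl (le_max_right _ _) (max_le_max_right _ hab)
    have hfin := blocks (f := fun T : ℝ => ∫ t in (0:ℝ)..(max T 0), ‖z t‖ ^ p) (m := A)
      (c := C * (K' * (4 * 2 ^ (A + 1))))
      (T₀ := 8 * T₂) hA (by positivity)
      (by have : 200 ≤ T₂ := le_max_right _ _; linarith) hm (fun T => I_nonneg (le_max_right _ _)) hb
    refine IsBigO.of_bound (2 * (C * (K' * (4 * 2 ^ (A + 1)))) + ∫ t in (0:ℝ)..(max (8 * T₂) 0), ‖z t‖ ^ p) ?_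
    filter_upwards [eventually_ge_atTop (8 * T₂), eventually_ge_atTop 1] with T hT hT1
    have hT00 : 0 < T := by linarith
    rw [Real.norm_of_nonneg (I_nonneg (by linarith)), Real.norm_of_nonneg (by
      have := Real.log_nonneg hT1
      positivity)]
    have := hfin T hT
    simp only [max_eq_left (by linarith : 0 ≤ T)] at this
    exact this

end Pool.Agent.Results.MP_91b7ff_nt.GramPoints
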