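import Pool.Agent.Q231.RS.LLpow
import Mathlib.Probability.Independence.InfinitePi

/-!
# Integer moments of zeta from polynomially few random values

Let `γ > 0` and let `X_0, X_1, ...` be pairwise independent random points, `X_n` uniformly distributed on the stratum
`[n^γ, (n + 1)^γ]`; so there are about `T^(1/γ)` points below `T`. Put
`S_k(N) = ∑_{n < N} ((n + 1)^γ - n^γ) |ζ(1/2 + iX_n)|^k`. We prove without any hypothesis: if `γk < 6` or `γ(k - 2) < 3`,
then almost surely `S_k(N) ∼ M_k(N^γ)`, and for every `c` the formula `M_k(T) ∼ c T (log T)^(k²/4)` holds if and only if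
`S_k(N)` is asymptotic to `c` times the same function at `N^γ`. So the asymptotic formula for the `k`-th moment can be
decided from `T^δ` random values of zeta below `T` with any `δ > 0` for `k = 1`, any `δ > 1/3` for `k = 3`,
any `δ > 5/6` for `k = 5`, any `δ > k/6` in general. Under the Lindelöf hypothesis any `δ > 0` suffices for all `k`.

Proof. The variance of `S_k(N)` is at most the sum of `((n + 1)^γ - n^γ) ∫ |ζ|^(2k)` over the strata. It is smaller by a power of
`N` than the square of the mean, by Weyl's bound `ζ(1/2 + it) = O(t^(1/6) log t)` and by the bound for the fourth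
moment (starting library); the strong law follows along a subsequence and by monotonicity.
-/

set_option autoImplicit false

open MeasureTheory ProbabilityTheory Filter Topology Set

namespace Pool.Agent.Results.MP_91b7ff_nt.SparseRandomSampling

/-- `M_k(T)` -/
noncomputable def M (k : ℕ) (T : ℝ) : ℝ := ∫ t in (0 : ℝ)..T, ‖riemannZeta (1 / 2 + t * Complex.I)‖ ^ k

/-- the sum over the sample `x_n`, weighted by the lengths of the strata -/
noncomputable def S (γ : ℝ) (x : ℕ → ℝ) (k : ℕ) (N : ℕ) : ℝ :=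
  ∑ n ∈ Finset.range N, (((n : ℝ) + 1) ^ γ - (n : ℝ) ^ γ) * ‖riemannZeta (1 / 2 + x n * Complex.I)‖ ^ k

/-- `T (log T)^(k²/4)` -/
noncomputable def g (k : ℕ) (T : ℝ) : ℝ := T * Real.log T ^ ((k : ℝ) ^ 2 / 4)

/-- `X_n` is uniformly distributed on `[n^γ, (n + 1)^γ]`, and the `X_n` are pairwise independent. -/
structure RandomPoints (γ : ℝ) {Ω : Type} [MeasurableSpace Ω] (P : Measure Ω) (X : ℕ → Ω → ℝ) : Prop where
  meas : ∀ n, Measurable (X n)
  law : ∀ n : ℕ, P.map (X n) =
    (ENNReal.ofReal (((n : ℝ) + 1) ^ γ - (n : ℝ) ^ γ))⁻¹ • volume.restrict (Icc ((n : ℝ) ^ γ) (((n : ℝ) + 1) ^ γ))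
  ind : Pairwise fun i j => IndepFun (X i) (X j) P

/-- Almost surely the sums over the sample are asymptotic to the `k`-th moment, and every asymptotic formula for the
`k`-th moment is equivalent to the same formula for the sums over the sample. -/
def Decides (γ : ℝ) {Ω : Type} [MeasurableSpace Ω] (P : Measure Ω) (X : ℕ → Ω → ℝ) (k : ℕ) : Prop :=
  ∀ᵐ ω ∂P, Tendsto (fun N : ℕ => S γ (fun n => X n ω) k N / M k ((N : ℝ) ^ γ)) atTop (𝓝 1) ∧
    ∀ c : ℝ, Tendsto (fun T : ℝ => M k T / g k T) atTop (𝓝 c) ↔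
      Tendsto (fun N : ℕ => S γ (fun n => X n ω) k N / g k ((N : ℝ) ^ γ)) atTop (𝓝 c)

/-- the product measure on the sequences of points of `[0, 1]` -/
noncomputable def Cube : Measure (ℕ → ℝ) := Measure.infinitePi fun _ : ℕ => (volume.restrict (Icc (0 : ℝ) 1))

open Pool.Agent.Q231.RS

lemma spts {γ : ℝ} {Ω : Type} [MeasurableSpace Ω] {P : Measure Ω} {X : ℕ → Ω → ℝ} (h : RandomPoints γ P X) :
    SPts (pw γ) P X := by
  refine ⟨h.meas, fun n => ?_, h.ind⟩
  have := h.law n
  unfold pw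
  push_cast
  exact this

instance inst1 : IsProbabilityMeasure (volume.restrict (Icc (0 : ℝ) 1)) := ⟨by simp⟩

instance inst2 : IsProbabilityMeasure Cube := by
  unfold Cube
  infer_instance

/-- such points exist -/
lemma cube_points {γ : ℝ} (hγ : 0 < γ) : RandomPoints γ Cube
    fun (n : ℕ) (θ : ℕ → ℝ) => (n : ℝ) ^ γ + (((n : ℝ) + 1) ^ γ - (n : ℝ) ^ γ) * θ n where
  meas := fun n => by fun_prop
  law := by
    intro n
    set a : ℝ := (n : ℝ) ^ γ with ha
    set b : ℝ := ((n : ℝ) + 1) ^ γ with hb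
    have hab : a < b := Real.rpow_lt_rpow (Nat.cast_nonneg n) (by linarith) hγ
    have hl : 0 < b - a := by linarith
    have h1 : Cube.map (fun θ : ℕ → ℝ => θ n) = volume.restrict (Icc (0 : ℝ) 1) :=
      Measure.infinitePi_map_eval (fun _ : ℕ => (volume.restrict (Icc (0 : ℝ) 1))) n
    have h2 : Cube.map (fun θ : ℕ → ℝ => a + (b - a) * θ n) =
        (Cube.map (fun θ : ℕ → ℝ => θ n)).map (fun x : ℝ => a + (b - a) * x) := by
      rw [Measure.map_map (by fun_prop) (by fun_prop)]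
      rfl
    rw [h2, h1]
    ext E hE
    have hm : Measurable fun x : ℝ => a + (b - a) * x := by fun_prop
    rw [Measure.map_apply hm hE, Measure.restrict_apply (hm hE), Measure.smul_apply, Measure.restrict_apply hE]
    have h3 : (fun x : ℝ => a + (b - a) * x) ⁻¹' E ∩ Icc 0 1 =
        (fun x : ℝ => (b - a) * x) ⁻¹' ((fun y : ℝ => a + y) ⁻¹' (E ∩ Icc a b)) := by
      ext x
      simp only [mem_inter_iff, mem_preimage, mem_Icc]
      constructor
      · rintro ⟨a1, a2, a3⟩
        exact ⟨a1, by nlinarith, by nlinarith⟩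
      · rintro ⟨a1, a2, a3⟩
        refine ⟨a1, ?_, ?_⟩
        · by_contra hx
          push Not at hx
          nlinarith
        · by_contra hx
          push Not at hx
          nlinarith
    rw [h3, Real.volume_preimage_mul_left hl.ne', measure_preimage_add, abs_of_pos (inv_pos.2 hl),
      ENNReal.ofReal_inv_of_pos hl, smul_eq_mul]
  ind := by
    intro i j hij
    have h1 : iIndepFun (fun (n : ℕ) (θ : ℕ → ℝ) => (n : ℝ) ^ γ + (((n : ℝ) + 1) ^ γ - (n : ℝ) ^ γ) * θ n) Cube := by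
      unfold Cube
      exact iIndepFun_infinitePi (P := fun _ : ℕ => (volume.restrict (Icc (0 : ℝ) 1)))
        (X := fun (n : ℕ) (x : ℝ) => (n : ℝ) ^ γ + (((n : ℝ) + 1) ^ γ - (n : ℝ) ^ γ) * x) (fun n => by fun_prop)
    exact h1.indepFun hij

lemma f_eq (k : ℕ) (t : ℝ) : ‖riemannZeta (1 / 2 + t * Complex.I)‖ ^ k = Pool.Agent.W188.Mom.Z t ^ (k : ℝ) := by
  unfold Pool.Agent.W188.Mom.Z
  rw [Real.rpow_natCast]

/-- the main step -/
lemma decides {γ θ : ℝ} (hγ : 0 < γ) {Ω : Type} [MeasurableSpace Ω] {P : Measure Ω} [IsProbabilityMeasure P]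
    {X : ℕ → Ω → ℝ} (h : RandomPoints γ P X) {k : ℕ} (hk : 1 ≤ k) (hθ : 0 ≤ θ) (hZ : Bd θ)
    (hc : γ * k * θ < 1 ∨ γ * ((2 * k - 4) * θ) < 1) : Decides γ P X k := by
  have hk1 : (1 : ℝ) ≤ k := by exact_mod_cast hk
  have hS : ∀ (ω : Ω) (N : ℕ), S γ (fun n => X n ω) k N =
      ∑ n ∈ Finset.range N, (pw γ (n + 1) - pw γ n) * Pool.Agent.W188.Mom.Z (X n ω) ^ (k : ℝ) := by
    intro ω N
    unfold S pw
    simp only [f_eq]
    push_cast
    rfl
  have hM : ∀ T : ℝ, M k T = ∫ t in (0 : ℝ)..T, Pool.Agent.W188.Mom.Z t ^ (k : ℝ) := by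
    intro T
    unfold M
    simp only [f_eq]
  have hEp : ∀ᶠ N : ℕ in atTop, 0 < ∫ t in (0 : ℝ)..(pw γ N), Pool.Agent.W188.Mom.Z t ^ (k : ℝ) := by
    filter_upwards [(pw_tendsto hγ).eventually (low_real hk1), (pw_tendsto hγ).eventually_gt_atTop 0] with N h1 h2
    linarith
  filter_upwards [lln_zeta hγ (spts h) hk1 hθ hZ hc] with ω hω
  constructor
  · simp only [hS, hM]
    exact hω
  · intro c
    simp only [hS, hM]
    have h1 := real_iff_pw hγ (Pool.Agent.W188.Mom.Zp_cont (p := (k : ℝ)) (by linarith))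
      (fun t => Real.rpow_nonneg (Pool.Agent.W188.Mom.Z_nonneg t) _) (A := (k : ℝ) ^ 2 / 4) (c := c) (by positivity)
    exact h1.trans (asy_iff' hEp hω)

/-- **Integer moments of zeta from polynomially few random values.** -/
theorem result (γ : ℝ) (hγ : 0 < γ) (Ω : Type) [MeasurableSpace Ω] (P : Measure Ω) [IsProbabilityMeasure P]
    (X : ℕ → Ω → ℝ) (h : RandomPoints γ P X) :
    -- without hypothesis
    (∀ k : ℕ, 1 ≤ k → (γ * k < 6 ∨ γ * (k - 2) < 3) → Decides γ P X k) ∧
    -- under the Lindelöf hypothesis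
    ((∀ ε : ℝ, 0 < ε → ∃ C : ℝ, ∀ t : ℝ, 0 ≤ t → ‖riemannZeta (1 / 2 + t * Complex.I)‖ ≤ C * (1 + t) ^ ε) →
      ∀ k : ℕ, 1 ≤ k → Decides γ P X k) ∧
    -- such points exist
    RandomPoints γ Cube (fun (n : ℕ) (θ : ℕ → ℝ) => (n : ℝ) ^ γ + (((n : ℝ) + 1) ^ γ - (n : ℝ) ^ γ) * θ n) := by
  refine ⟨fun k hk hc => ?_, fun hLH k hk => ?_, cube_points hγ⟩
  · refine decides hγ h hk (by norm_num : (0 : ℝ) ≤ 1 / 6) weyl_exp ?_
    rcases hc with hc | hc
    · exact Or.inl (by linarith)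
    · refine Or.inr ?_
      have : γ * ((2 * k - 4) * (1 / 6)) = γ * (k - 2) / 3 := by ring
      rw [this]
      linarith
  · refine decides hγ h hk (le_refl (0 : ℝ)) (fun ε hε => ?_) (Or.inl (by simp))
    obtain ⟨C, hC⟩ := hLH ε hε
    refine ⟨C, fun t ht => ?_⟩
    rw [zero_add]
    exact hC t ht

end Pool.Agent.Results.MP_91b7ff_nt.SparseRandomSampling
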