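import Pool.Agent.Y753.NL.Tilt
import Pool.Agent.Y753.SHR.R18

set_option autoImplicit false

/-!
MP_91b7ff_nt. The law of `log |ζ|` under the measure which defines the `k`-th moment, with arithmetic twists, near the
critical line. Let `δ(T) → 0`, `δ(T) log T → ∞`. Under the density proportional to `|ζ(1/2 + δ + it)|^k` on `[0, T]` the
variable `(log |ζ(1/2 + δ + it)| - (k/2) log (1/(2δ))) / √((1/2) log (1/(2δ)))` is asymptotically standard normal, and
asymptotically independent of the twist `(l/h)^(it)`, whose mean converges to an explicit arithmetic constant.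
For real `0 < k < 4` this holds on all of `[0, T]`; for every real `k > 0` it holds off a small set of large values.
-/

open Filter Topology MeasureTheory ProbabilityTheory

namespace Pool.Agent.Results.MP_91b7ff_nt.TiltedLaw

/-- the coefficient of `x^m` in `(1 - x)^(-κ)`, i.e. the value `d_κ(p^m)` of the generalised divisor function -/
noncomputable def dpow (κ : ℝ) (m : ℕ) : ℝ := ∏ i ∈ Finset.range m, (κ + i) / ((i : ℝ) + 1)

/-- the arithmetic factor `a(κ)` of the moment of order `2κ` -/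
noncomputable def ak (κ : ℝ) : ℝ :=
  ∏' p : Nat.Primes, ((1 - 1 / (p : ℝ)) ^ (κ ^ 2) * ∑' m : ℕ, dpow κ m ^ 2 * (1 / (p : ℝ)) ^ m)

/-- `|ζ(1/2 + δ + it)|` -/
noncomputable def az (δ t : ℝ) : ℝ := ‖riemannZeta (1 / 2 + δ + Complex.I * (t : ℂ))‖

/-- the twist `(l/h)^(it)` -/
noncomputable def twist (h l : ℕ) (t : ℝ) : ℂ := Complex.exp (Complex.I * ((t * (Real.log l - Real.log h) : ℝ) : ℂ))

/-- the local factor: the mean of `p^(ict)` under the measure of order `2κ` -/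
noncomputable def loc (κ : ℝ) (p c : ℕ) : ℝ :=
  Real.sqrt p ^ c * (∑' i : ℕ, dpow κ i * dpow κ (i + c) * (1 / (p : ℝ)) ^ (i + c)) /
    ∑' i : ℕ, dpow κ i ^ 2 * (1 / (p : ℝ)) ^ i

/-- the mean of the twist `(l/h)^(it)` under the measure of order `2κ`, for coprime `h` and `l` -/
noncomputable def mean (κ : ℝ) (h l : ℕ) : ℝ := ∏ p ∈ (h * l).primeFactors, loc κ p ((h * l).factorization p)

/-- the normalised logarithm -/
noncomputable def nlog (k δ t : ℝ) : ℝ :=
  (Real.log (az δ t) - k / 2 * Real.log (1 / (2 * δ))) / √(Real.log (1 / (2 * δ)) / 2)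

lemma zn_eq (δ t : ℝ) : Pool.Agent.W184.zn (1 / 2 + δ) t = az δ t := by
  unfold Pool.Agent.W184.zn az
  congr 2
  push_cast
  ring

lemma za_eq (δ t : ℝ) : Pool.Agent.Y753.SHR.za δ 0 t = az δ t := by
  unfold Pool.Agent.Y753.SHR.za az
  congr 2
  push_cast
  ring

lemma tw_eq (h l : ℕ) (t : ℝ) : Pool.Agent.Y753.NL.tw h l t = twist h l t := by
  unfold Pool.Agent.Y753.NL.tw twist
  congr 1
  push_cast
  ring

lemma ak_eq (κ : ℝ) : Pool.Agent.H306R2.aF κ = ak κ := rfl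

lemma mean_eq (κ : ℝ) (h l : ℕ) : Pool.Agent.Y753.NL.Nu κ h l = mean κ h l := rfl

/-- **The law of `log |ζ|` and of the twists under the moment measures.** -/
theorem result (δ : ℝ → ℝ) (hδ : Tendsto δ atTop (𝓝 0))
    (hδL : Tendsto (fun T : ℝ => δ T * Real.log T) atTop atTop) :
    -- order less than four, complete integrals
    (∀ k : ℝ, 0 < k → k < 4 → ∀ h l : ℕ, h ≠ 0 → l ≠ 0 → h.Coprime l → ∀ F : BoundedContinuousFunction ℝ ℝ,
      Tendsto (fun T => (∫ t in (0:ℝ)..T, ((az (δ T) t ^ k * F (nlog k (δ T) t) : ℝ) : ℂ) * twist h l t) /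
        ((∫ t in (0:ℝ)..T, az (δ T) t ^ k : ℝ) : ℂ)) atTop
        (𝓝 ((mean (k / 2) h l * ∫ x, F x ∂(gaussianReal 0 1) : ℝ) : ℂ))) ∧
    -- every order, off a small set of large values
    ∀ c : ℝ, 0 ≤ c → ∃ E : ℝ → Set ℝ,
      (∀ T, MeasurableSet (E T) ∧ ∀ t ∈ E T, 0 ≤ t ∧ t ≤ T ∧ (δ T) ^ (-(2 + c)) < az (δ T) t) ∧
      Tendsto (fun T => (volume (E T)).toReal / (T * (δ T) ^ (4 + 4 * c))) atTop (𝓝 0) ∧
      ∀ k : ℝ, 0 < k → (k ≤ 4 ∨ 4 + 4 * c ≤ k) → ∀ h l : ℕ, h ≠ 0 → l ≠ 0 → h.Coprime l →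
        ∀ F : BoundedContinuousFunction ℝ ℝ,
        Tendsto (fun T => (((2 * δ T) ^ (k ^ 2 / 4) / T : ℝ) : ℂ) *
          ∫ t in Set.Icc 0 T \ E T, ((az (δ T) t ^ k * F (nlog k (δ T) t) : ℝ) : ℂ) * twist h l t) atTop
          (𝓝 ((ak (k / 2) * (mean (k / 2) h l * ∫ x, F x ∂(gaussianReal 0 1)) : ℝ) : ℂ)) := by
  have e1 : ∀ k : ℝ, 2 * (k / 2) = k := fun k => by ring
  have e2 : ∀ k : ℝ, (k / 2) ^ 2 = k ^ 2 / 4 := fun k => by ring
  have e3 : ∀ k d t : ℝ, (Real.log (az d t) - k / 2 * Pool.Agent.Y753.NL.ell d) / Pool.Agent.Y753.NL.sg d =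
      nlog k d t := fun k d t => rfl
  refine ⟨fun k hk hk4 h l hh hl hc F => ?_, fun c hc => ?_⟩
  · have h1 := Pool.Agent.Y753.NL.tilt (α0 := k / 2) (by linarith) (by linarith) hh hl hc hδ hδL F
    simp_rw [zn_eq, tw_eq, e1, e3, mean_eq] at h1
    exact h1
  · obtain ⟨E, hE, hvol, h1⟩ := Pool.Agent.Y753.SHR.tilt_small hδ hδL hc
    refine ⟨E, fun T => ⟨(hE T).1, fun t ht => ⟨((hE T).2.1 ht).1, ((hE T).2.1 ht).2, ?_⟩⟩, hvol, ?_⟩
    · have := (hE T).2.2 t ht
      rwa [za_eq] at this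
    · intro k hk hcase h l hh hl hc' F
      have h2 := h1 (k / 2) (by linarith) (by
        rcases hcase with h | h
        · left; linarith
        · right; linarith) h l hh hl hc' F
      simp_rw [zn_eq, tw_eq, e1, e2, e3, mean_eq, ak_eq] at h2
      exact h2

end Pool.Agent.Results.MP_91b7ff_nt.TiltedLaw
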